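import Pool.Agent.helper82.LB.Spec1
import Mathlib.LinearAlgebra.Projectivization.Action

/-!
# Project LB (MP_2e0e07_nt), row lb:DIC: Dickson's theorem for small images
-/

set_option autoImplicit false

open Matrix Polynomial NumberField Pool.Agent.GO Pool.Agent.RG Pool.Agent.CH

namespace Pool.Agent.LB

open scoped LinearAlgebra.Projectivization

section lin
variable {κ : Type} [Field κ]

theorem DIC_ch (A : Matrix (Fin 2) (Fin 2) κ) (v : Fin 2 → κ) : A *ᵥ (A *ᵥ v) = A.trace • (A *ᵥ v) - A.det • v := by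
  ext i
  fin_cases i <;> simp [Matrix.mulVec, dotProduct, Fin.sum_univ_two, Matrix.trace_fin_two, Matrix.det_fin_two] <;> ring

theorem DIC_root (A : Matrix (Fin 2) (Fin 2) κ) (v : Fin 2 → κ) (hv : v ≠ 0) (a : κ) (h : A *ᵥ v = a • v) :
    a ^ 2 - A.trace * a + A.det = 0 := by
  have h1 := DIC_ch A v
  rw [h, mulVec_smul, h] at h1
  have h2 : (a ^ 2 - A.trace * a + A.det) • v = 0 := by
    have h3 : (a ^ 2 - A.trace * a + A.det) • v = a • a • v - (A.trace • a • v - A.det • v) := by
      rw [add_smul, sub_smul, mul_smul, pow_two, mul_smul]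
      abel
    rw [h3, h1, sub_self]
  exact (smul_eq_zero.1 h2).resolve_right hv

theorem DIC_par (u v : Fin 2 → κ) (hv : v ≠ 0) (h : u 0 * v 1 = u 1 * v 0) : ∃ t : κ, t • v = u := by
  by_cases h0 : v 0 = 0
  · have h1 : v 1 ≠ 0 := by
      intro h1
      apply hv
      ext i
      fin_cases i
      · exact h0
      · exact h1
    refine ⟨u 1 / v 1, ?_⟩
    ext i
    fin_cases i
    · show u 1 / v 1 * v 0 = u 0
      have h2 : u 0 * v 1 = 0 := by rw [h, h0, mul_zero]
      rw [h0, mul_zero]
      exact ((mul_eq_zero.1 h2).resolve_right h1).symm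
    · exact div_mul_cancel₀ _ h1
  · refine ⟨u 0 / v 0, ?_⟩
    ext i
    fin_cases i
    · exact div_mul_cancel₀ _ h0
    · show u 0 / v 0 * v 1 = u 1
      rw [div_mul_eq_mul_div, div_eq_iff h0, h]

theorem DIC_eig (A : Matrix (Fin 2) (Fin 2) κ) (a : κ) (hA : A ≠ a • (1 : Matrix (Fin 2) (Fin 2) κ)) (u v : Fin 2 → κ) (hv : v ≠ 0)
    (hAu : A *ᵥ u = a • u) (hAv : A *ᵥ v = a • v) : ∃ t : κ, t • v = u := by
  apply DIC_par u v hv
  by_contra hcr
  apply hA
  have hcr' : u 0 * v 1 - u 1 * v 0 ≠ 0 := sub_ne_zero.2 hcr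
  have e0 : A 0 0 * u 0 + A 0 1 * u 1 = a * u 0 := by
    have := congrFun hAu 0
    simpa [Matrix.mulVec, dotProduct, Fin.sum_univ_two] using this
  have e1 : A 1 0 * u 0 + A 1 1 * u 1 = a * u 1 := by
    have := congrFun hAu 1
    simpa [Matrix.mulVec, dotProduct, Fin.sum_univ_two] using this
  have f0 : A 0 0 * v 0 + A 0 1 * v 1 = a * v 0 := by
    have := congrFun hAv 0
    simpa [Matrix.mulVec, dotProduct, Fin.sum_univ_two] using this
  have f1 : A 1 0 * v 0 + A 1 1 * v 1 = a * v 1 := by
    have := congrFun hAv 1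
    simpa [Matrix.mulVec, dotProduct, Fin.sum_univ_two] using this
  have g00 : A 0 0 - a = 0 := by
    have : (A 0 0 - a) * (u 0 * v 1 - u 1 * v 0) = 0 := by linear_combination v 1 * e0 - u 1 * f0
    exact (mul_eq_zero.1 this).resolve_right hcr'
  have g01 : A 0 1 = 0 := by
    have : A 0 1 * (u 0 * v 1 - u 1 * v 0) = 0 := by linear_combination u 0 * f0 - v 0 * e0
    exact (mul_eq_zero.1 this).resolve_right hcr'
  have g10 : A 1 0 = 0 := by
    have : A 1 0 * (u 0 * v 1 - u 1 * v 0) = 0 := by linear_combination v 1 * e1 - u 1 * f1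
    exact (mul_eq_zero.1 this).resolve_right hcr'
  have g11 : A 1 1 - a = 0 := by
    have : (A 1 1 - a) * (u 0 * v 1 - u 1 * v 0) = 0 := by linear_combination u 0 * f1 - v 0 * e1
    exact (mul_eq_zero.1 this).resolve_right hcr'
  ext i j
  fin_cases i <;> fin_cases j
  · simpa [sub_eq_zero] using g00
  · simpa using g01
  · simpa using g10
  · simpa [sub_eq_zero] using g11

/-- a matrix of order prime to the characteristic with a double eigenvalue is scalar -/
theorem DIC_dsc (h2 : (2 : κ) ≠ 0) (A : Matrix (Fin 2) (Fin 2) κ) (n : ℕ) (hn : (n : κ) ≠ 0) (hA : A ^ n = 1) (hd : dsc A = 0) :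
    ∃ c : κ, A = c • (1 : Matrix (Fin 2) (Fin 2) κ) := by
  have hCH : A * A = A.trace • A - A.det • 1 := by
    ext i j
    fin_cases i <;> fin_cases j <;>
      simp [Matrix.mul_apply, Fin.sum_univ_two, Matrix.trace_fin_two, Matrix.det_fin_two] <;> ring
  obtain ⟨a, ha⟩ : ∃ a : κ, a = A.trace / 2 := ⟨_, rfl⟩
  have ht : A.trace = 2 * a := by rw [ha]; field_simp
  have hdet : A.det = a ^ 2 := by
    have h4 : (4 : κ) ≠ 0 := by
      have : (4 : κ) = 2 * 2 := by norm_num
      rw [this]
      exact mul_ne_zero h2 h2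
    have h5 : 4 * (a ^ 2 - A.det) = 0 := by
      unfold dsc at hd
      rw [ht] at hd
      linear_combination hd
    exact (sub_eq_zero.1 ((mul_eq_zero.1 h5).resolve_left h4)).symm
  obtain ⟨N, hN⟩ : ∃ N : Matrix (Fin 2) (Fin 2) κ, N = A - a • 1 := ⟨_, rfl⟩
  have hAN : A = a • 1 + N := by rw [hN]; abel
  have hN2 : N * N = 0 := by
    rw [hN, sub_mul, mul_sub, mul_sub, hCH, ht, hdet]
    simp only [smul_mul_assoc, mul_smul_comm, one_mul, mul_one, smul_smul]
    rw [two_mul, add_smul, pow_two]
    abel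
  have hpow : ∀ k : ℕ, A ^ k = (a ^ k) • (1 : Matrix (Fin 2) (Fin 2) κ) + (k * a ^ (k - 1)) • N := by
    intro k
    induction k with
    | zero => simp
    | succ k ih =>
      rw [pow_succ, ih, hAN, add_mul, mul_add, mul_add, smul_mul_assoc, mul_smul_comm, one_mul, smul_mul_assoc, one_mul, smul_mul_assoc,
        mul_smul_comm, mul_one, smul_mul_assoc, hN2, smul_zero, add_zero, smul_smul, smul_smul, add_assoc, ← add_smul, pow_succ]
      congr 2
      rcases k with _ | k
      · simp
      · rw [Nat.add_sub_cancel, Nat.add_sub_cancel]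
        push_cast
        ring
  have h1 := hpow n
  rw [hA] at h1
  have h3 : (1 - a ^ n) • (1 : Matrix (Fin 2) (Fin 2) κ) = (n * a ^ (n - 1)) • N := by
    rw [sub_smul, one_smul]
    exact sub_eq_of_eq_add' h1
  have h4 : ((1 - a ^ n) * (1 - a ^ n)) • (1 : Matrix (Fin 2) (Fin 2) κ) = 0 := by
    have h5 : ((1 - a ^ n) * (1 - a ^ n)) • (1 : Matrix (Fin 2) (Fin 2) κ) = ((1 - a ^ n) • (1 : Matrix (Fin 2) (Fin 2) κ)) * ((1 - a ^ n) • 1) := by
      rw [smul_mul_assoc, one_mul, smul_smul]
    rw [h5, h3, smul_mul_assoc, mul_smul_comm, hN2, smul_zero, smul_zero]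
  have h6 : (1 - a ^ n) * (1 - a ^ n) = 0 := by
    have := congrFun (congrFun h4 0) 0
    simpa using this
  have h7 : 1 - a ^ n = 0 := mul_self_eq_zero.1 h6
  rw [h7, zero_smul] at h3
  have hn0 : n ≠ 0 := by
    rintro rfl
    exact hn Nat.cast_zero
  have ha0 : a ≠ 0 := by
    rintro rfl
    rw [zero_pow hn0, sub_zero] at h7
    exact one_ne_zero h7
  have h8 : N = 0 := (smul_eq_zero.1 h3.symm).resolve_left (mul_ne_zero hn (pow_ne_zero _ ha0))
  exact ⟨a, by rw [hAN, h8, add_zero]⟩

end lin

section act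
variable {κ G : Type} [Field κ] [Group G]

/-- the action on vectors -/
@[reducible] def DIC_dma (S : G →* Matrix (Fin 2) (Fin 2) κ) : DistribMulAction G (Fin 2 → κ) where
  smul g v := S g *ᵥ v
  one_smul v := by
    show S 1 *ᵥ v = v
    rw [map_one, one_mulVec]
  mul_smul g h v := by
    show S (g * h) *ᵥ v = S g *ᵥ (S h *ᵥ v)
    rw [map_mul, mulVec_mulVec]
  smul_zero g := mulVec_zero _
  smul_add g v w := mulVec_add _ _ _

/-- the action on lines -/
theorem DIC_perm (S : G →* Matrix (Fin 2) (Fin 2) κ) : ∃ π : G →* Equiv.Perm (ℙ κ (Fin 2 → κ)), ∀ (g : G) (v w : Fin 2 → κ) (hv : v ≠ 0) (hw : w ≠ 0),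
    π g (Projectivization.mk κ v hv) = Projectivization.mk κ w hw ↔ ∃ a : κ, a • w = S g *ᵥ v := by
  let _ := DIC_dma S
  have : SMulCommClass G κ (Fin 2 → κ) := ⟨fun g c v => mulVec_smul _ _ _⟩
  refine ⟨MulAction.toPermHom G (ℙ κ (Fin 2 → κ)), fun g v w hv hw => ?_⟩
  exact Projectivization.mk_eq_mk_iff' κ _ _ _ hw

theorem DIC_core (hDIR : DIR_stmt) (p : ℕ) [Fact p.Prime] [CharP κ p] (hp2 : p ≠ 2) (S : G →* Matrix (Fin 2) (Fin 2) κ)
    (htd : ∀ g, ∃ a b : ZMod p, ZMod.castHom (dvd_refl p) κ a = (S g).trace ∧ ZMod.castHom (dvd_refl p) κ b = (S g).det)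
    (v : Fin 2 → κ) (hv : v ≠ 0) (H : Subgroup G) (hH : ∀ h ∈ H, ∃ a : κ, S h *ᵥ v = a • v) (g g' : G) (hg : g ∈ H) (hg' : g' ∈ H) :
    ∃ c : ZMod p, dsc (S g) * dsc (S g') = (ZMod.castHom (dvd_refl p) κ c) ^ 2 := by
  have hex : ∀ h : H, ∃ a : κ, S h *ᵥ v = a • v := fun h => hH h h.2
  choose a ha using hex
  have hone : a 1 = 1 := by
    have h1 := ha 1
    have h2 : S ((1 : H) : G) = 1 := map_one S
    rw [h2, one_mulVec] at h1
    have h3 : (1 - a 1) • v = 0 := by rw [sub_smul, one_smul, ← h1, sub_self]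
    exact (sub_eq_zero.1 ((smul_eq_zero.1 h3).resolve_right hv)).symm
  have hmul : ∀ h h' : H, a (h * h') = a h * a h' := by
    intro h h'
    have h1 := ha (h * h')
    have h2 : S ((h * h' : H) : G) = S h * S h' := map_mul S _ _
    rw [h2, ← mulVec_mulVec, ha h', mulVec_smul, ha h, smul_smul] at h1
    have h3 : (a h' * a h - a (h * h')) • v = 0 := by rw [sub_smul, h1, sub_self]
    rw [mul_comm (a h)]
    exact (sub_eq_zero.1 ((smul_eq_zero.1 h3).resolve_right hv)).symm
  let α : H →* κ := { toFun := a, map_one' := hone, map_mul' := hmul }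
  let β : H →* κ := { toFun := fun h => (S h).det * (a h)⁻¹
                      map_one' := by
                        have h2 : S ((1 : H) : G) = 1 := map_one S
                        rw [h2, hone, det_one, inv_one, mul_one]
                      map_mul' := by
                        intro h h'
                        have h2 : S ((h * h' : H) : G) = S h * S h' := map_mul S _ _
                        rw [h2, hmul, det_mul, mul_inv]
                        ring }
  have hα : ∀ h, ((MonoidHom.toHomUnits α h : κˣ) : κ) = a h := fun h => rfl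
  have hβ : ∀ h, ((MonoidHom.toHomUnits β h : κˣ) : κ) = (S h).det * (a h)⁻¹ := fun h => rfl
  have ha0 : ∀ h, a h ≠ 0 := fun h => by
    rw [← hα]
    exact Units.ne_zero _
  have htr : ∀ h : H, (S h).trace = a h + (S h).det * (a h)⁻¹ := by
    intro h
    have h1 := DIC_root (S h) v hv (a h) (ha h)
    have h2 := ha0 h
    field_simp
    linear_combination -h1
  have hdt : ∀ h : H, (S h).det = a h * ((S h).det * (a h)⁻¹) := by
    intro h
    have h2 := ha0 h
    field_simp
  have hdsc : ∀ h : H, dsc (S h) = (a h - (S h).det * (a h)⁻¹) ^ 2 := by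
    intro h
    unfold dsc
    rw [htr h]
    have := hdt h
    linear_combination (-4) * this
  obtain ⟨c, hc⟩ := hDIR p κ H (MonoidHom.toHomUnits α) (MonoidHom.toHomUnits β) hp2 (by
    intro h
    obtain ⟨x, y, hx, hy⟩ := htd h
    refine ⟨x, y, ?_, ?_⟩
    · rw [hx, hα, hβ]
      exact htr h
    · rw [hy, hα, hβ]
      exact hdt h) ⟨g, hg⟩ ⟨g', hg'⟩
  refine ⟨c, ?_⟩
  have e1 := hdsc ⟨g, hg⟩
  have e2 := hdsc ⟨g', hg'⟩
  have e3 : (a ⟨g, hg⟩ - (S g).det * (a ⟨g, hg⟩)⁻¹) * (a ⟨g', hg'⟩ - (S g').det * (a ⟨g', hg'⟩)⁻¹) = ZMod.castHom (dvd_refl p) κ c := hc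
  show dsc (S g) * dsc (S g') = _
  have e1' : dsc (S g) = (a ⟨g, hg⟩ - (S g).det * (a ⟨g, hg⟩)⁻¹) ^ 2 := e1
  have e2' : dsc (S g') = (a ⟨g', hg'⟩ - (S g').det * (a ⟨g', hg'⟩)⁻¹) ^ 2 := e2
  rw [e1', e2', ← e3, mul_pow]

end act

theorem DIC (hKLE : KLE_stmt) (hDIR : DIR_stmt) : DIC_stmt := by
  classical
  intro p _ κ G _ _ _ _ S hp2 hker htd hg₀ hirr g g' hg hg'
  have hp : p.Prime := Fact.out
  have h2 : (2 : κ) ≠ 0 := by
    intro h
    have h1 : ((2 : ℕ) : κ) = 0 := by exact_mod_cast h
    rw [CharP.cast_eq_zero_iff κ p] at h1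
    exact hp2 ((Nat.prime_dvd_prime_iff_eq hp Nat.prime_two).1 h1)
  by_cases hI : Irred (fun g => S g)
  swap
  · -- reducible
    have hex : ∃ U : Submodule κ (Fin 2 → κ), (∀ g, ∀ u ∈ U, S g *ᵥ u ∈ U) ∧ U ≠ ⊥ ∧ U ≠ ⊤ := by
      by_contra hcon
      push Not at hcon
      apply hI
      refine ⟨inferInstance, fun U hU => ?_⟩
      by_cases h : U = ⊥
      · exact Or.inl h
      · exact Or.inr (hcon U hU h)
    obtain ⟨U, hU, hU0, hU1⟩ := hex
    have hf1 : Module.finrank κ U < 2 := by
      have := Submodule.finrank_lt hU1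
      rwa [Module.finrank_fin_fun] at this
    have hf0 : 0 < Module.finrank κ U := by
      rw [Module.finrank_pos_iff]
      exact Submodule.nontrivial_iff_ne_bot.2 hU0
    have hf : Module.finrank κ U = 1 := by omega
    obtain ⟨v, hv, hvU⟩ := finrank_eq_one_iff'.1 hf
    refine DIC_core hDIR p hp2 S htd (v : Fin 2 → κ) (fun h => hv (Subtype.ext h)) ⊤ ?_ g g' (Subgroup.mem_top _) (Subgroup.mem_top _)
    intro h _
    obtain ⟨c, hc⟩ := hvU ⟨S h *ᵥ v, hU h v v.2⟩
    exact ⟨c, (congrArg Subtype.val hc).symm⟩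
  · have hno : ∀ g, orderOf (S g) ≠ p := fun g h => hirr ⟨hI, g, h⟩
    obtain ⟨π, hπ⟩ := DIC_perm S
    -- orders
    have hfin : ∀ g, ∃ n : ℕ, (n : κ) ≠ 0 ∧ S g ^ n = 1 := by
      intro g
      obtain ⟨n, hn, -, hgn⟩ := Subgroup.exists_pow_mem_of_index_ne_zero hker.index_ne_zero g
      have h1 : S g ^ n = 1 := by
        rw [← map_pow]
        exact hgn
      have h3 : orderOf (S g) ≠ 0 := by
        rw [Ne, orderOf_eq_zero_iff, not_not]
        exact isOfFinOrder_iff_pow_eq_one.2 ⟨n, hn, h1⟩
      refine ⟨orderOf (S g), ?_, pow_orderOf_eq_one _⟩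
      rw [Ne, CharP.cast_eq_zero_iff κ p]
      intro hd
      apply hno (g ^ (orderOf (S g) / p))
      rw [map_pow]
      exact orderOf_pow_orderOf_div h3 hd
    have hdist : ∀ g, (∀ c : κ, S g ≠ c • (1 : Matrix (Fin 2) (Fin 2) κ)) → dsc (S g) ≠ 0 := by
      intro g hg h0
      obtain ⟨n, hn, h1⟩ := hfin g
      obtain ⟨c, hc⟩ := DIC_dsc h2 (S g) n hn h1 h0
      exact hg c hc
    have hscal : ∀ g, (∃ c : κ, S g = c • (1 : Matrix (Fin 2) (Fin 2) κ)) → π g = 1 := by
      rintro g ⟨c, hc⟩
      apply Equiv.ext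
      intro x
      induction x using Projectivization.ind with
      | h v hv =>
        show π g (Projectivization.mk κ v hv) = Projectivization.mk κ v hv
        rw [hπ]
        exact ⟨c, by rw [hc, smul_mulVec, one_mulVec]⟩
    have hscal' : ∀ g, π g = 1 → ∃ c : κ, S g = c • (1 : Matrix (Fin 2) (Fin 2) κ) := by
      intro g hg
      have hfix : ∀ v : Fin 2 → κ, v ≠ 0 → ∃ a : κ, a • v = S g *ᵥ v := by
        intro v hv
        rw [← hπ g v v hv hv, hg]
        rfl
      obtain ⟨a, ha⟩ := hfix ![1, 0] (fun h => one_ne_zero (congrFun h 0))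
      obtain ⟨b, hb⟩ := hfix ![0, 1] (fun h => one_ne_zero (congrFun h 1))
      obtain ⟨c, hc⟩ := hfix ![1, 1] (fun h => one_ne_zero (congrFun h 1))
      have a0 := congrFun ha 0
      have a1 := congrFun ha 1
      have b0 := congrFun hb 0
      have b1 := congrFun hb 1
      have c0 := congrFun hc 0
      have c1 := congrFun hc 1
      simp [Matrix.mulVec, dotProduct, Fin.sum_univ_two] at a0 a1 b0 b1 c0 c1
      refine ⟨a, ?_⟩
      ext i j
      fin_cases i <;> fin_cases j
      · simp [a0]
      · simp [← b0]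
      · simp [← a1]
      · simp
        rw [← a1, zero_add] at c1
        rw [← b0, add_zero] at c0
        rw [← c1, c0, a0]
    -- the finite group
    have hkπ : π.ker.FiniteIndex := by
      have hle : S.ker ≤ π.ker := by
        intro g hg
        have h1 : S g = 1 := hg
        exact hscal g ⟨1, by rw [h1, one_smul]⟩
      exact Subgroup.finiteIndex_of_le hle
    have hPfin : Finite π.range := by
      have h1 : Finite (G ⧸ π.ker) := Subgroup.finite_quotient_of_finiteIndex
      exact Finite.of_equiv _ (QuotientGroup.quotientKerEquivRange π).toEquiv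
    have hKL := hKLE π.range (ℙ κ (Fin 2 → κ)) (by
      rintro ⟨_, g, rfl⟩ hne
      have hne' : π g ≠ 1 := fun h => hne (Subtype.ext h)
      have hns : ∀ c : κ, S g ≠ c • (1 : Matrix (Fin 2) (Fin 2) κ) := fun c hc => hne' (hscal g ⟨c, hc⟩)
      have hd := hdist g hns
      obtain ⟨s, hs⟩ := IsAlgClosed.exists_eq_mul_self (dsc (S g))
      have hs0 : s ≠ 0 := by
        rintro rfl
        rw [mul_zero] at hs
        exact hd hs
      have heig : ∀ a : κ, a ^ 2 - (S g).trace * a + (S g).det = 0 → ∃ v : Fin 2 → κ, v ≠ 0 ∧ S g *ᵥ v = a • v := by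
        intro a ha
        have h1 : (S g - a • (1 : Matrix (Fin 2) (Fin 2) κ)).det = 0 := by
          rw [← ha]
          simp [Matrix.det_fin_two, Matrix.trace_fin_two]
          ring
        obtain ⟨v, hv, hv1⟩ := Matrix.exists_mulVec_eq_zero_iff.2 h1
        refine ⟨v, hv, ?_⟩
        rw [sub_mulVec, smul_mulVec, one_mulVec, sub_eq_zero] at hv1
        exact hv1
      obtain ⟨a, haD⟩ : ∃ a : κ, a = ((S g).trace + s) / 2 := ⟨_, rfl⟩
      obtain ⟨b, hbD⟩ : ∃ b : κ, b = ((S g).trace - s) / 2 := ⟨_, rfl⟩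
      unfold dsc at hs
      have hab : a - b = s := by rw [haD, hbD]; field_simp; ring
      have hsum : (S g).trace = a + b := by rw [haD, hbD]; field_simp; ring
      have h4 : (4 : κ) ≠ 0 := by
        have : (4 : κ) = 2 * 2 := by norm_num
        rw [this]
        exact mul_ne_zero h2 h2
      have hprod : (S g).det = a * b := by
        have h5 : 4 * ((S g).det - a * b) = 0 := by
          rw [hsum, ← hab] at hs
          linear_combination -hs
        exact sub_eq_zero.1 ((mul_eq_zero.1 h5).resolve_left h4)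
      obtain ⟨v, hv, hva⟩ := heig a (by rw [hsum, hprod]; ring)
      obtain ⟨w, hw, hwb⟩ := heig b (by rw [hsum, hprod]; ring)
      have hset : MulAction.fixedBy (ℙ κ (Fin 2 → κ)) (⟨π g, g, rfl⟩ : π.range) = {Projectivization.mk κ v hv, Projectivization.mk κ w hw} := by
        ext x
        induction x using Projectivization.ind with
        | h u hu =>
          rw [MulAction.mem_fixedBy, Set.mem_insert_iff, Set.mem_singleton_iff, Projectivization.mk_eq_mk_iff', Projectivization.mk_eq_mk_iff']
          show π g (Projectivization.mk κ u hu) = Projectivization.mk κ u hu ↔ _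
          rw [hπ]
          constructor
          · rintro ⟨c, hc⟩
            have hr := DIC_root (S g) u hu c hc.symm
            have h6 : (c - a) * (c - b) = 0 := by
              rw [hsum, hprod] at hr
              linear_combination hr
            rcases mul_eq_zero.1 h6 with h7 | h7
            · left
              rw [sub_eq_zero] at h7
              rw [h7] at hc
              exact DIC_eig (S g) a (hns a) u v hv hc.symm hva
            · right
              rw [sub_eq_zero] at h7
              rw [h7] at hc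
              exact DIC_eig (S g) b (hns b) u w hw hc.symm hwb
          · rintro (⟨c, rfl⟩ | ⟨c, rfl⟩)
            · exact ⟨a, by rw [mulVec_smul, hva, smul_comm]⟩
            · exact ⟨b, by rw [mulVec_smul, hwb, smul_comm]⟩
      rw [hset, Set.ncard_pair]
      rw [Ne, Projectivization.mk_eq_mk_iff']
      rintro ⟨c, rfl⟩
      rw [mulVec_smul, hwb, smul_comm] at hva
      have h8 : (a - b) • (c • w) = 0 := by rw [sub_smul, hva, sub_self]
      rcases smul_eq_zero.1 h8 with h9 | h9
      · rw [hab] at h9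
        exact hs0 h9
      · exact hv h9)
    rcases hKL with ⟨x, hx⟩ | hcard
    swap
    · exfalso
      obtain ⟨g₀, hg₀⟩ := hg₀
      have h1 : orderOf (⟨π g₀, g₀, rfl⟩ : π.range) ≤ 60 := by
        have : Fintype π.range := Fintype.ofFinite _
        refine le_trans (orderOf_le_card (G := π.range)) hcard
      have h3 : 0 < orderOf (⟨π g₀, g₀, rfl⟩ : π.range) := orderOf_pos _
      have h4 := pow_orderOf_eq_one (⟨π g₀, g₀, rfl⟩ : π.range)
      have h5 : π (g₀ ^ orderOf (⟨π g₀, g₀, rfl⟩ : π.range)) = 1 := by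
        rw [map_pow]
        exact congrArg Subtype.val h4
      obtain ⟨c, hc⟩ := hscal' _ h5
      rw [map_pow] at hc
      exact hg₀ _ h3 h1 c hc
    · -- the stabilizer
      have hstab : ∀ g, π g x = x ∨ π g (π g x) = x := by
        intro g
        have hne0 : (MulAction.stabilizer π.range x).index ≠ 0 := Subgroup.FiniteIndex.index_ne_zero
        have h12 : (MulAction.stabilizer π.range x).index = 1 ∨ (MulAction.stabilizer π.range x).index = 2 := by omega
        rcases h12 with h1 | h1
        · left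
          rw [Subgroup.index_eq_one] at h1
          have h3 : (⟨π g, g, rfl⟩ : π.range) ∈ MulAction.stabilizer π.range x := by
            rw [h1]
            exact Subgroup.mem_top _
          exact h3
        · by_cases h4 : (⟨π g, g, rfl⟩ : π.range) ∈ MulAction.stabilizer π.range x
          · left
            exact h4
          · right
            have h5 := (Subgroup.mul_mem_iff_of_index_two h1 (a := (⟨π g, g, rfl⟩ : π.range)) (b := (⟨π g, g, rfl⟩ : π.range))).2 Iff.rfl
            exact h5
      induction x using Projectivization.ind with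
      | h v hv =>
        have htrace : ∀ g, (S g).trace ≠ 0 → ∃ a : κ, S g *ᵥ v = a • v := by
          intro g hg
          have hSv : S g *ᵥ v ≠ 0 := by
            intro h0
            have h1 : S g⁻¹ *ᵥ (S g *ᵥ v) = v := by
              rw [mulVec_mulVec, ← map_mul, inv_mul_cancel, map_one, one_mulVec]
            rw [h0, mulVec_zero] at h1
            exact hv h1.symm
          rcases hstab g with h1 | h1
          · rw [hπ] at h1
            obtain ⟨a, ha⟩ := h1
            exact ⟨a, ha.symm⟩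
          · have h3 : π g (Projectivization.mk κ v hv) = Projectivization.mk κ (S g *ᵥ v) hSv := by
              rw [hπ]
              exact ⟨1, one_smul _ _⟩
            rw [h3, hπ] at h1
            obtain ⟨a, ha⟩ := h1
            have h4 := DIC_ch (S g) v
            rw [← ha] at h4
            refine ⟨((S g).trace)⁻¹ * (a + (S g).det), ?_⟩
            have h5 : (S g).trace • (S g *ᵥ v) = (a + (S g).det) • v := by
              rw [add_smul, h4, sub_add_cancel]
            rw [mul_smul, ← h5, smul_smul, inv_mul_cancel₀ hg, one_smul]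
        let H : Subgroup G :=
          { carrier := {g | ∃ a : κ, S g *ᵥ v = a • v}
            mul_mem' := by
              rintro g h ⟨a, ha⟩ ⟨b, hb⟩
              exact ⟨b * a, by rw [map_mul, ← mulVec_mulVec, hb, mulVec_smul, ha, smul_smul]⟩
            one_mem' := ⟨1, by rw [map_one, one_mulVec, one_smul]⟩
            inv_mem' := by
              rintro g ⟨a, ha⟩
              have h1 : S g⁻¹ *ᵥ (S g *ᵥ v) = v := by
                rw [mulVec_mulVec, ← map_mul, inv_mul_cancel, map_one, one_mulVec]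
              rw [ha, mulVec_smul] at h1
              have ha0 : a ≠ 0 := by
                rintro rfl
                rw [zero_smul] at h1
                exact hv h1.symm
              refine ⟨a⁻¹, ?_⟩
              have h2 : a⁻¹ • (a • (S g⁻¹ *ᵥ v)) = a⁻¹ • v := congrArg (fun t => a⁻¹ • t) h1
              rwa [smul_smul, inv_mul_cancel₀ ha0, one_smul] at h2 }
        exact DIC_core hDIR p hp2 S htd v hv H (fun h hh => hh) g g' (htrace g hg) (htrace g' hg')

end Pool.Agent.LB
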